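import Pool.Agent.Helper16.CZ.Stmts

/-! cz_mods CFN: from functions on the euclidean space to functions on the torus. -/

open Finset Filter MeasureTheory Topology

namespace Pool.Agent.Helper16.CZ

open Pool.Agent.Helper16.AZ (T)

theorem cfn_lift {r : ℕ} (x : T r) : ∃ t : Fin r → ℝ, (fun j => (t j : UnitAddCircle)) = x := by
  have h : ∀ j, ∃ t : ℝ, (t : UnitAddCircle) = x j := fun j => QuotientAddGroup.mk_surjective (x j)
  choose t ht using h
  exact ⟨t, funext ht⟩

theorem cfn_sum {r : ℕ} (X : Fin r → ℤ) (t : Fin r → ℝ) :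
    ((∑ j, (X j : ℝ) * t j : ℝ) : UnitAddCircle) = ∑ j, X j • (t j : UnitAddCircle) := by
  have h := map_sum (QuotientAddGroup.mk' (AddSubgroup.zmultiples (1 : ℝ)))
    (fun j => (X j : ℝ) * t j) Finset.univ
  refine h.trans (Finset.sum_congr rfl fun j _ => ?_)
  rw [← zsmul_eq_mul]
  exact map_zsmul (QuotientAddGroup.mk' (AddSubgroup.zmultiples (1 : ℝ))) (X j) (t j)

theorem st_CFN (hC : ST_C1L) : ST_CFN := by
  intro r lev D f S hT
  obtain ⟨h1, h2, h3, h4, h5, h6, h7⟩ := hT
  have hC' := fun i => hC r (f i) (h1 i) (h2 i)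
  choose F hF hL hg using hC'
  choose L hL0 hL1 using hL
  have hdep : ∀ i (x y : T r), (∀ j, lev j < lev i → x j = y j) → F i x = F i y := by
    intro i x y hxy
    obtain ⟨t, ht⟩ := cfn_lift x
    obtain ⟨s, hs⟩ := cfn_lift y
    have hs' : (fun j => ((if lev j < lev i then t j else s j : ℝ) : UnitAddCircle)) = y := by
      funext j
      by_cases h : lev j < lev i
      · rw [if_pos h, ← hxy j h, ← ht]
      · rw [if_neg h, ← hs]
    have e1 : F i x = f i t := by rw [← ht]; exact hF i t
    have e2 : F i y = f i (fun j => if lev j < lev i then t j else s j) := by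
      have := hF i (fun j => if lev j < lev i then t j else s j)
      rw [hs'] at this
      exact this
    rw [e1, e2]
    refine h3 i _ _ fun j hj => ?_
    rw [if_pos hj]
  refine ⟨F, ⟨∑ i, L i, Finset.sum_nonneg fun i _ => hL0 i, ?_⟩, hg, hdep, h4, ?_, ?_, h7⟩
  · intro i x y
    refine (hL1 i x y).trans (mul_le_mul_of_nonneg_right ?_ dist_nonneg)
    exact Finset.single_le_sum (f := L) (fun j _ => hL0 j) (Finset.mem_univ i)
  · intro x i
    obtain ⟨t, ht⟩ := cfn_lift x
    have e := h5 t i
    rw [AddCircle.coe_add, AddCircle.coe_add, cfn_sum, ← hF i t] at e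
    rw [ht] at e
    rw [e]
    have hxj : ∀ j, (t j : UnitAddCircle) = x j := fun j => congrFun ht j
    simp only [hxj]
  · intro X hX hX0 x hsum
    have e : ∀ j, X j • (F j x : UnitAddCircle) = X j • (f j 0 : UnitAddCircle) := by
      intro j
      by_cases hj : X j = 0
      · rw [hj, zero_smul, zero_smul]
      · have hl := hX0 j hj
        have e1 : F j x = F j (fun i => ((0 : Fin r → ℝ) i : UnitAddCircle)) := by
          refine hdep j _ _ fun j' hj' => ?_
          rw [hl] at hj'
          exact absurd hj' (Nat.not_lt_zero _)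
        rw [e1, hF j 0]
    rw [Finset.sum_congr rfl (fun j _ => e j), ← cfn_sum X (fun j => f j 0),
      AddCircle.coe_eq_zero_iff] at hsum
    obtain ⟨n, hn⟩ := hsum
    refine h6 X hX hX0 n ?_
    rw [← hn, zsmul_eq_mul, mul_one]

end Pool.Agent.Helper16.CZ
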